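import Pool.Agent.Lib.MP_06caae_pr.G.Sixth

/-!
# The scaling limit of random walk on the high dimensional incipient infinite cluster

Let `d ≥ 1` be such that the triangle condition holds at the critical parameter of bond percolation on `ℤ^d`, and let `ν` be
the law of the incipient infinite cluster (the limit which defines it is assumed to exist, as in the problem). We prove that
the simple random walk on the cluster has, under the annealed law, a non-degenerate scaling limit in the `J₁` topology of
`D([0, ∞), ℝ^d)`. More precisely there is a deterministic scale `a n → ∞` with bounded doubling such that, with the time scale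
`b n = n`, every sequence of times has a subsequence along which the rescaled walk converges in distribution to a process with
continuous paths which, with a probability bounded below, leaves the origin immediately. If moreover the two-point function
and the one-arm probability satisfy the upper bounds of mean-field type (they do in all dimensions `d ≥ 11`), then this holds
with the predicted scale `a n = n^(1/6)`, and the limit process leaves the origin immediately with probability one.

Idea of the proof. Percolation: under the triangle condition the intrinsic balls `B(r)` have mean size of order `r` and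
the probability that the sphere of radius `r` is not empty is of order `1 / r` (Barsky and Aizenman, Kozma and Nachmias; all of
this is proved here from the triangle condition alone, with surgery arguments which use only that `τ * τ * τ (e)` is small for
large `e`). The new part is the extrinsic scale `a`: `A(R)` is defined by an exponential moment of the extrinsic displacement of
the points of the intrinsic ball, and three-arm surgeries show that the tail of the displacement at this scale is heavy at all
larger intrinsic scales (growth lemma); submultiplicativity gives the upper tails. Under the incipient infinite cluster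
this gives uniform bounds for volumes, for cuts (lanes) and for the extrinsic modulus of intrinsic balls, and a reach of order
`a` with a probability bounded below. Walk: on a graph with such bounds the walk exits intrinsic balls of radius `R` in times
of order `R^3`, uniformly in the starting point; so the annealed laws of the rescaled walk are tight and non-degenerate, and the
theorems of Arzelà and Ascoli and of Prokhorov give the limits.
-/

open MeasureTheory ProbabilityTheory Filter Topology
open scoped NNReal
open Pool.Agent.Lib.MP_566bac_pr.Zd (V lattice openGraph criticalProbability)
open Pool.MP_06caae_pr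

namespace Pool.Agent.Results.MP_06caae_pr.ScalingLimit

/-- Let `d ≥ 1`, let `p` be the critical parameter of bond percolation on `ℤ^d`, assume the triangle condition, and let `ν` be
the law of the incipient infinite cluster. There is exactly one annealed law `Q` of the simple random walk on the cluster,
started at the origin. With the time scale `b n = n` there is a monotone scale `a n → ∞` with `a (2 n) ≤ K a n` such that
every sequence `φ` of times has a subsequence along which the processes `(X ⌊n t⌋ / a n)_{t ≥ 0}` converge in distribution,
in the Skorokhod space with the `J₁` topology, to a continuous process which, with probability at least `q`, is not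
identically zero on any interval `[0, t]`, `t > 0`; here `q > 0` does not depend on the sequence. In particular there are
deterministic `a n → ∞`, `b n → ∞` (the ones above along a subsequence) such that the processes
`(X ⌊b n t⌋ / a n)_{t ≥ 0}` converge in distribution, in the same sense, to a process (with continuous paths) which is not almost
surely identically zero. If moreover the two-point function is at most `C ‖x‖^(2 - d)` and the probability that the cluster
of the origin has a point at distance at least `n` is at most `C / n ^ 2`, then every sequence of times has a subsequence
along which the processes `(X ⌊n t⌋ / n^(1/6))_{t ≥ 0}` converge in distribution to a continuous process which is almost surely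
not identically zero on any interval `[0, t]`, `t > 0`. -/
theorem result {d : ℕ} (hd : 0 < d) (p : unitInterval) (hp : (p : ℝ) = criticalProbability d)
    (htri : TriangleCondition d p) (ν : Measure (Set (Sym2 (V d)))) (hν : IsIICLaw p ν) :
    (∃! Q : Measure (ℕ → V d), IsAnnealedLaw ν Q) ∧
    ∀ Q : Measure (ℕ → V d), IsAnnealedLaw ν Q →
      (∃ a : ℕ → ℝ, (∀ n, 0 < a n) ∧ Monotone a ∧ Tendsto a atTop atTop ∧
        (∃ K : ℝ, ∀ n ≥ 1, a (2 * n) ≤ K * a n) ∧
        ∃ q > (0 : ℝ), ∀ φ : ℕ → ℕ, StrictMono φ → ∃ ψ : ℕ → ℕ, StrictMono ψ ∧
          ∃ μ : Measure C(ℝ≥0, Fin d → ℝ), IsProbabilityMeasure μ ∧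
            ConvergesInLaw Q (fun k => scaled (a (φ (ψ k))) (φ (ψ k))) μ Cadlag.ofCont ∧
            q ≤ μ.real {f | ∀ t > (0 : ℝ≥0), ∃ s ≤ t, f s ≠ 0}) ∧
      (∃ a b : ℕ → ℝ, Tendsto a atTop atTop ∧ Tendsto b atTop atTop ∧
        ∃ μ : Measure C(ℝ≥0, Fin d → ℝ), IsProbabilityMeasure μ ∧
          ConvergesInLaw Q (fun n => scaled (a n) (b n)) μ Cadlag.ofCont ∧ μ {f | ∀ t, f t = 0} < 1) ∧
      ∀ C : ℝ, (∀ x : V d, x ≠ 0 → twoPoint p 0 x ≤ C * ‖x‖ ^ (2 - (d : ℝ))) →
        (∀ n : ℕ, 1 ≤ n → (percolation d p).real {S | ∃ y : V d, (n : ℝ) ≤ ‖y‖ ∧ Connected S 0 y} ≤ C / (n : ℝ) ^ 2) →
        ∀ φ : ℕ → ℕ, StrictMono φ → ∃ ψ : ℕ → ℕ, StrictMono ψ ∧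
          ∃ μ : Measure C(ℝ≥0, Fin d → ℝ), IsProbabilityMeasure μ ∧
            ConvergesInLaw Q (fun k => scaled ((φ (ψ k) : ℝ) ^ (1 / 6 : ℝ)) (φ (ψ k))) μ Cadlag.ofCont ∧
            μ {f | ∀ t > (0 : ℝ≥0), ∃ s ≤ t, f s ≠ 0} = 1 :=
  Pool.Agent.Lib.MP_06caae_pr.main_sixth hd p hp htri ν hν

end Pool.Agent.Results.MP_06caae_pr.ScalingLimit
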